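import Pool.Agent.Lib.MP_562b47_mp.BX.Box

/-!
MP_562b47, d = 2, passage from boxes to the plane: the limit.
-/

open MeasureTheory Set Filter Topology Complex Matrix
open scoped Real ENNReal NNReal InnerProductSpace

namespace Pool.Agent.Lib.MP_562b47_mp.BX

open Pool.Agent.Lib.MP_562b47_mp Pool.Agent.Lib.MP_562b47_mp.BG Pool.Agent.Lib.MP_562b47_mp.AL

section pi

variable {ι Λ : Type*} [Fintype ι] [DecidableEq ι] [DecidableEq Λ]

omit [DecidableEq ι] in
/-- the law of finitely many coordinates -/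
theorem mp_coord (μ : Measure ℝ) [IsProbabilityMeasure μ] {g : ι → Λ} (hg : Function.Injective g) :
    MeasurePreserving (fun (ω : Λ → ℝ) (x : ι) => ω (g x)) (Measure.infinitePi fun _ : Λ => μ)
      (Measure.pi fun _ : ι => μ) := by
  classical
  refine ⟨by fun_prop, ?_⟩
  symm
  refine Measure.pi_eq fun s hs => ?_
  rw [Measure.map_apply (by fun_prop) (MeasurableSet.univ_pi hs)]
  set t : Λ → Set ℝ := fun j => if h : ∃ x, g x = j then s h.choose else univ with ht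
  have htg : ∀ x, t (g x) = s x := by
    intro x
    have h : ∃ x', g x' = g x := ⟨x, rfl⟩
    simp only [ht]
    rw [dif_pos h, hg h.choose_spec]
  have htm : ∀ j, MeasurableSet (t j) := by
    intro j
    simp only [ht]
    split_ifs
    · exact hs _
    · exact MeasurableSet.univ
  have e1 : (fun (ω : Λ → ℝ) (x : ι) => ω (g x)) ⁻¹' (Set.pi univ s)
      = Set.pi ((Finset.univ.map ⟨g, hg⟩ : Finset Λ) : Set Λ) t := by
    ext ω
    simp only [mem_preimage, Set.mem_pi, mem_univ, true_imp_iff, Finset.mem_coe, Finset.mem_map,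
      Finset.mem_univ, true_and, Function.Embedding.coeFn_mk]
    constructor
    · rintro h j ⟨x, rfl⟩
      rw [htg]
      exact h x
    · intro h x
      have := h (g x) ⟨x, rfl⟩
      rwa [htg] at this
  rw [e1, Measure.infinitePi_pi _ (fun j _ => htm j), Finset.prod_map]
  simp [htg]

end pi

variable {ι κ : Type*} [Fintype ι] [DecidableEq ι] [Fintype κ]
variable {c E a : ℝ} {pos : ι → ℤ × ℤ} {A : Matrix ι ι ℝ}

theorem lint_GM (hc : 0 < c) (a : ℝ) (A : Matrix ι ι ℝ) (hpos : Function.Injective pos) (x y : ι) :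
    ∫⁻ ω, ‖GM A (ub c a pos ω) x y‖ₑ ^ 2 ∂(PP (Fin 2 → ℤ) c)
      = ∫⁻ V, ‖GM A (fun x => ((V x : ℝ) : ℂ) - a * Complex.I) x y‖ₑ ^ 2
        ∂(Measure.pi fun _ : ι => unif c) := by
  have := unif_prob hc
  have hmp := mp_coord (unif c) (g := fun x => tv (pos x)) (fun x y h => hpos (tv.injective h))
  have hcm := (continuous_clp c).measurable
  have hm : Measurable fun V : ι → ℝ =>
      ‖GM A (fun x => ((clp c (V x) : ℝ) : ℂ) - a * Complex.I) x y‖ₑ ^ 2 :=
    ((measurable_GM' A (u := fun (V : ι → ℝ) x => ((clp c (V x) : ℝ) : ℂ) - a * Complex.I)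
      (fun x => by fun_prop) x y).enorm).pow_const 2
  have h1 := hmp.lintegral_comp hm
  have h2 : ∫⁻ ω, ‖GM A (ub c a pos ω) x y‖ₑ ^ 2 ∂(PP (Fin 2 → ℤ) c)
      = ∫⁻ V, ‖GM A (fun x => ((clp c (V x) : ℝ) : ℂ) - a * Complex.I) x y‖ₑ ^ 2
        ∂(Measure.pi fun _ : ι => unif c) := h1
  rw [h2]
  refine lintegral_congr_ae ?_
  have h3 : ∀ᵐ V ∂(Measure.pi fun _ : ι => unif c), ∀ x, V x ∈ Icc (-c) c := by
    rw [ae_all_iff]
    intro x
    exact (measurePreserving_eval (fun _ : ι => unif c) x).quasiMeasurePreserving.ae (ae_unif c)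
  filter_upwards [h3] with V hV
  have h4 : (fun x => ((clp c (V x) : ℝ) : ℂ) - a * Complex.I)
      = fun x => ((V x : ℝ) : ℂ) - a * Complex.I := by
    funext x
    rw [clp_of_mem (hV x)]
  rw [h4]

/-- the box functional as a lower integral -/
theorem lint_DU (hc : 0 < c) (ha : 0 < a) (hA : A.IsSymm) (ξ : κ → ι → ℝ) :
    ENNReal.ofReal (∫ V, DU A ξ (fun x => ((V x : ℝ) : ℂ) - a * Complex.I)
        ∂(Measure.pi fun _ : ι => unif c))
      = ENNReal.ofReal (a ^ 2) * ∑ y, ∑ x, ENNReal.ofReal (ff ξ x y) *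
        ∫⁻ V, ‖GM A (fun x => ((V x : ℝ) : ℂ) - a * Complex.I) x y‖ₑ ^ 2
        ∂(Measure.pi fun _ : ι => unif c) := by
  have := unif_prob hc
  have hl : ∀ V : ι → ℝ, Loss fun x => ((V x : ℝ) : ℂ) - a * Complex.I := fun V x => by simpa using ha
  have hmu : ∀ x, Measurable fun V : ι → ℝ => ((V x : ℝ) : ℂ) - a * Complex.I := fun x => by
    fun_prop
  have hint : Integrable (fun V : ι → ℝ => DU A ξ (fun x => ((V x : ℝ) : ℂ) - a * Complex.I))
      (Measure.pi fun _ : ι => unif c) := by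
    refine Integrable.of_bound (C := ∑ x, ∑ y, ff ξ x y)
      (measurable_DU A ξ (u := fun (V : ι → ℝ) x => ((V x : ℝ) : ℂ) - a * Complex.I)
        hmu).aestronglyMeasurable (ae_of_all _ fun V => ?_)
    rw [Real.norm_of_nonneg (DU_nonneg ξ (hl V))]
    exact DU_le hA (hl V) ξ
  rw [ofReal_integral_eq_lintegral_ofReal hint (ae_of_all _ fun V => DU_nonneg ξ (hl V))]
  have hmG : ∀ x y, Measurable fun V : ι → ℝ =>
      ‖GM A (fun x => ((V x : ℝ) : ℂ) - a * Complex.I) x y‖ₑ ^ 2 := fun x y =>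
    ((measurable_GM' A (u := fun (V : ι → ℝ) x => ((V x : ℝ) : ℂ) - a * Complex.I)
      hmu x y).enorm).pow_const 2
  have h1 : ∀ V : ι → ℝ, ENNReal.ofReal (DU A ξ (fun x => ((V x : ℝ) : ℂ) - a * Complex.I))
      = ENNReal.ofReal (a ^ 2) * ∑ y, ∑ x, ENNReal.ofReal (ff ξ x y) *
        ‖GM A (fun x => ((V x : ℝ) : ℂ) - a * Complex.I) x y‖ₑ ^ 2 := by
    intro V
    simp only [DU, AL.DD]
    have hg : ∀ x, gam (fun x => ((V x : ℝ) : ℂ) - a * Complex.I) x = a := fun x => by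
      unfold gam; simp
    simp only [hg]
    rw [Finset.sum_comm, Finset.mul_sum]
    rw [ENNReal.ofReal_sum_of_nonneg fun y _ => Finset.sum_nonneg fun x _ => by
      have := ff_nonneg ξ x y
      positivity]
    refine Finset.sum_congr rfl fun y _ => ?_
    rw [Finset.mul_sum, ENNReal.ofReal_sum_of_nonneg fun x _ => by
      have := ff_nonneg ξ x y
      positivity]
    refine Finset.sum_congr rfl fun x _ => ?_
    rw [enorm_sq_eq, ← ENNReal.ofReal_mul (ff_nonneg ξ x y), ← ENNReal.ofReal_mul (by positivity)]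
    congr 1
    ring
  simp only [h1]
  rw [lintegral_const_mul' _ _ ENNReal.ofReal_ne_top]
  congr 1
  rw [lintegral_finsetSum _ fun y _ => Finset.measurable_fun_sum _ fun x _ =>
    (hmG x y).const_mul _]
  refine Finset.sum_congr rfl fun y _ => ?_
  rw [lintegral_finsetSum _ fun x _ => (hmG x y).const_mul _]
  refine Finset.sum_congr rfl fun x _ => ?_
  rw [lintegral_const_mul' _ _ ENNReal.ofReal_ne_top]

omit [Fintype ι] in
theorem A_symm (hA : ∀ x y, A x y = if x = y then 4 - E else if adj (pos x) (pos y) then -1 else 0) :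
    A.IsSymm := by
  have hadj : ∀ x y : ι, adj (pos x) (pos y) ↔ adj (pos y) (pos x) := by
    intro x y
    unfold adj
    constructor <;> intro h <;> rcases h with h | h | h | h <;>
      · have h1 := congrArg Prod.fst h
        have h2 := congrArg Prod.snd h
        simp only at h1 h2
        simp only [Prod.ext_iff]
        omega
  ext x y
  rw [transpose_apply, hA, hA]
  by_cases h : x = y
  · subst h; rfl
  · rw [if_neg h, if_neg (Ne.symm h)]
    by_cases h' : adj (pos x) (pos y)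
    · rw [if_pos h', if_pos ((hadj x y).mp h')]
    · rw [if_neg h', if_neg (fun h2 => h' ((hadj x y).mpr h2))]

/-- one box -/
theorem one_box (hc : 0 < c) (ha : 0 < a) (hpos : Function.Injective pos)
    (hA : ∀ x y, A x y = if x = y then 4 - E else if adj (pos x) (pos y) then -1 else 0)
    {ξ : κ → ι → ℝ} (hξ : ∀ x y, ff ξ x y = nsq (pos x - pos y))
    (F S : Finset (ℤ × ℤ)) (B : Finset ι) (hyF : ∀ y ∈ B, ∀ v ∈ F, pos y + v ∈ Set.range pos)
    (hyS : ∀ y ∈ B, ∀ v ∈ S, pos y + v ∈ Set.range pos) {ε : ℝ≥0∞}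
    (hF : ∑' v, (if v ∈ F then 0 else gf c ⟨E, a⟩ v) ≤ ε) {θ : ℝ} (hθ : 0 < θ) :
    (B.card : ℝ≥0∞) * (ENNReal.ofReal (a ^ 2) * ∑ v ∈ S, ENNReal.ofReal (nsq v) * gf c ⟨E, a⟩ v)
      ≤ ENNReal.ofReal (1 + θ) * ENNReal.ofReal (∫ V, DU A ξ (fun x => ((V x : ℝ) : ℂ)
          - a * Complex.I) ∂(Measure.pi fun _ : ι => unif c))
        + (B.card : ℝ≥0∞) * (ENNReal.ofReal (a ^ 2) *
          (ENNReal.ofReal ((1 + 1 / θ) * (∑ v ∈ S, nsq v) * (16 / a ^ 2)) * ε)) := by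
  rw [lint_DU hc ha (A_symm hA) ξ]
  set T : ι → ℝ≥0∞ := fun y => ∑ x, ENNReal.ofReal (ff ξ x y) *
        ∫⁻ V, ‖GM A (fun x => ((V x : ℝ) : ℂ) - a * Complex.I) x y‖ₑ ^ 2
        ∂(Measure.pi fun _ : ι => unif c) with hT
  have h1 : ∀ y ∈ B, ENNReal.ofReal (a ^ 2) * ∑ v ∈ S, ENNReal.ofReal (nsq v) * gf c ⟨E, a⟩ v
      ≤ ENNReal.ofReal (1 + θ) * (ENNReal.ofReal (a ^ 2) * T y) + ENNReal.ofReal (a ^ 2) *
          (ENNReal.ofReal ((1 + 1 / θ) * (∑ v ∈ S, nsq v) * (16 / a ^ 2)) * ε) := by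
    intro y hy
    have h2 := one_site hc ha hpos hA F S y (hyF y hy) (hyS y hy) hF hθ
    have h3 : ∑ x, ENNReal.ofReal (nsq (pos x - pos y)) *
          ∫⁻ ω, ‖GM A (ub c a pos ω) x y‖ₑ ^ 2 ∂(PP (Fin 2 → ℤ) c) = T y := by
      refine Finset.sum_congr rfl fun x _ => ?_
      rw [lint_GM hc a A hpos x y, hξ]
    rw [h3] at h2
    calc ENNReal.ofReal (a ^ 2) * ∑ v ∈ S, ENNReal.ofReal (nsq v) * gf c ⟨E, a⟩ v
        ≤ ENNReal.ofReal (a ^ 2) * (ENNReal.ofReal (1 + θ) * T y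
          + ENNReal.ofReal ((1 + 1 / θ) * (∑ v ∈ S, nsq v) * (16 / a ^ 2)) * ε) := by gcongr
      _ = _ := by ring
  have h4 := Finset.sum_le_sum h1
  rw [Finset.sum_const, Finset.sum_add_distrib, Finset.sum_const, nsmul_eq_mul, nsmul_eq_mul,
    ← Finset.mul_sum, ← Finset.mul_sum] at h4
  refine h4.trans ?_
  gcongr
  exact Finset.subset_univ _

/-! ### The square boxes -/

/-- positions of the sites of the box of side `n` -/
def bp (n : ℕ) (x : Fin n × Fin n) : ℤ × ℤ := (((x.1 : ℕ) : ℤ), ((x.2 : ℕ) : ℤ))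

theorem bp_inj (n : ℕ) : Function.Injective (bp n) := by
  intro x y h
  simp only [bp, Prod.mk.injEq, Nat.cast_inj] at h
  exact Prod.ext (Fin.ext h.1) (Fin.ext h.2)

/-- the matrix of the box of side `n` -/
def Ab (E : ℝ) (n : ℕ) : Matrix (Fin n × Fin n) (Fin n × Fin n) ℝ :=
  Matrix.of fun x y => if x = y then 4 - E else if adj (bp n x) (bp n y) then -1 else 0

/-- coordinates in the box of side `n` -/
def xb (n : ℕ) (j : Fin 2) (x : Fin n × Fin n) : ℝ := if j = 0 then (x.1 : ℝ) else (x.2 : ℝ)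

theorem ff_xb (n : ℕ) (x y : Fin n × Fin n) : ff (xb n) x y = nsq (bp n x - bp n y) := by
  unfold ff nsq bp xb
  rw [Fin.sum_univ_two]
  simp

theorem box_bound (hc : 0 < c) (ha : 0 < a) {K : ℝ} {n₀ : ℕ}
    (h : ∀ n ≥ n₀, ∫ V, DU (Ab E n) (xb n) (fun x => ((V x : ℝ) : ℂ) - a * Complex.I)
      ∂(Measure.pi fun _ : Fin n × Fin n => unif c) ≤ K * n ^ 2)
    (F S : Finset (ℤ × ℤ)) {ρ : ℕ} (hF : ∀ v ∈ F, |v.1| ≤ ρ ∧ |v.2| ≤ ρ)
    (hS : ∀ v ∈ S, |v.1| ≤ ρ ∧ |v.2| ≤ ρ) {ε : ℝ≥0∞}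
    (hFε : ∑' v, (if v ∈ F then 0 else gf c ⟨E, a⟩ v) ≤ ε) {θ : ℝ} (hθ : 0 < θ) {k : ℕ}
    (hk : n₀ ≤ k) :
    ((k ^ 2 : ℕ) : ℝ≥0∞) * (ENNReal.ofReal (a ^ 2) *
        ∑ v ∈ S, ENNReal.ofReal (nsq v) * gf c ⟨E, a⟩ v)
      ≤ ENNReal.ofReal (1 + θ) * ENNReal.ofReal (K * ((k + 2 * ρ : ℕ) : ℝ) ^ 2)
        + ((k ^ 2 : ℕ) : ℝ≥0∞) * (ENNReal.ofReal (a ^ 2) *
          (ENNReal.ofReal ((1 + 1 / θ) * (∑ v ∈ S, nsq v) * (16 / a ^ 2)) * ε)) := by
  classical
  set n := k + 2 * ρ with hn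
  have hlt : ∀ i : Fin k, (i : ℕ) + ρ < n := fun i => by have := i.2; omega
  set e : Fin k × Fin k → Fin n × Fin n := fun p => (⟨p.1 + ρ, hlt p.1⟩, ⟨p.2 + ρ, hlt p.2⟩) with he
  have hinj : Function.Injective e := by
    intro p q h
    simp only [he, Prod.mk.injEq, Fin.mk.injEq] at h
    exact Prod.ext (Fin.ext (by omega)) (Fin.ext (by omega))
  have hrange : ∀ (p : Fin k × Fin k) (v : ℤ × ℤ), |v.1| ≤ ρ → |v.2| ≤ ρ →
      bp n (e p) + v ∈ Set.range (bp n) := by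
    intro p v h1 h2
    rw [abs_le] at h1 h2
    have hp1 := p.1.2
    have hp2 := p.2.2
    have g1 : (((p.1 : ℕ) + ρ : ℤ) + v.1).toNat < n := by omega
    have g2 : (((p.2 : ℕ) + ρ : ℤ) + v.2).toNat < n := by omega
    refine ⟨(⟨_, g1⟩, ⟨_, g2⟩), ?_⟩
    simp only [bp, he, Prod.ext_iff, Prod.fst_add, Prod.snd_add]
    constructor
    · push_cast
      omega
    · push_cast
      omega
  have h1 := one_box (ι := Fin n × Fin n) (pos := bp n) (A := Ab E n) (ξ := xb n) hc ha (bp_inj n)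
    (fun x y => rfl) (ff_xb n) F S (Finset.univ.map ⟨e, hinj⟩)
    (fun y hy v hv => by
      obtain ⟨p, _, rfl⟩ := Finset.mem_map.mp hy
      exact hrange p v (hF v hv).1 (hF v hv).2)
    (fun y hy v hv => by
      obtain ⟨p, _, rfl⟩ := Finset.mem_map.mp hy
      exact hrange p v (hS v hv).1 (hS v hv).2) hFε hθ
  have h2 : (Finset.univ.map ⟨e, hinj⟩ : Finset (Fin n × Fin n)).card = k ^ 2 := by
    rw [Finset.card_map, Finset.card_univ, Fintype.card_prod, Fintype.card_fin, sq]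
  rw [h2] at h1
  refine h1.trans ?_
  gcongr
  exact h n (by omega)

/-- **From boxes to the plane.** -/
theorem lim_box (hc : 0 < c) (ha : 0 < a) {K : ℝ} (hK : 0 ≤ K) {n₀ : ℕ}
    (h : ∀ n ≥ n₀, ∫ V, DU (Ab E n) (xb n) (fun x => ((V x : ℝ) : ℂ) - a * Complex.I)
      ∂(Measure.pi fun _ : Fin n × Fin n => unif c) ≤ K * n ^ 2) :
    QL.DE 2 c ⟨E, a⟩ ≤ ENNReal.ofReal (K / a ^ 2) := by
  classical
  have hz : 0 < (⟨E, a⟩ : ℂ).im := ha
  -- the functional as a sum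
  have hDE : QL.DE 2 c ⟨E, a⟩ = ∑' v, ENNReal.ofReal (nsq v) * gf c ⟨E, a⟩ v := by
    unfold QL.DE
    rw [lintegral_tsum]
    · rw [← tv.tsum_eq]
      refine tsum_congr fun v => ?_
      rw [lintegral_const_mul' _ _ ENNReal.ofReal_ne_top]
      have h1 : ∑ i, ((tv v i : ℤ) : ℝ) ^ 2 = nsq v := by
        rw [Fin.sum_univ_two]; rfl
      rw [h1]
      congr 1
      unfold gf Gp
      refine lintegral_congr fun ω => ?_
      rw [tv_zero, (model (d := 2) hc).Gr_symm ω hz]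
    · intro x
      refine AEMeasurable.const_mul ?_ _
      exact ((((model (d := 2) hc).continuous_Gr continuous_id continuous_const (fun _ => hz)
        0 x).enorm.measurable).pow_const 2).aemeasurable
  rw [hDE, ENNReal.tsum_eq_iSup_sum]
  refine iSup_le fun S => ?_
  set D : ℝ≥0∞ := ∑ v ∈ S, ENNReal.ofReal (nsq v) * gf c ⟨E, a⟩ v with hD
  have hDtop : D ≠ ⊤ := by
    rw [hD]
    exact (ENNReal.sum_lt_top.mpr fun v _ => ENNReal.mul_lt_top ENNReal.ofReal_lt_top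
      (lt_top_iff_ne_top.mpr (gf_ne_top hc hz v))).ne
  -- the main inequality
  have hmain : ∀ θ : ℝ, 0 < θ → ∀ ε : ℝ, 0 < ε →
      a ^ 2 * D.toReal ≤ (1 + θ) * K
        + a ^ 2 * (((1 + 1 / θ) * (∑ v ∈ S, nsq v) * (16 / a ^ 2)) * ε) := by
    intro θ hθ ε hε
    set Cθ : ℝ := (1 + 1 / θ) * (∑ v ∈ S, nsq v) * (16 / a ^ 2) with hCθ
    have hCθ0 : 0 ≤ Cθ := mul_nonneg (mul_nonneg (by positivity)
      (Finset.sum_nonneg fun v _ => nsq_nonneg v)) (by positivity)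
    obtain ⟨F, hF⟩ := gf_tail (c := c) (z := ⟨E, a⟩) hc hz (ε := ENNReal.ofReal ε) (by simpa using hε)
    obtain ⟨ρ, hρ⟩ : ∃ ρ : ℕ, ∀ v ∈ F ∪ S, |v.1| ≤ ρ ∧ |v.2| ≤ ρ := by
      refine ⟨∑ v ∈ F ∪ S, (v.1.natAbs + v.2.natAbs), fun v hv => ?_⟩
      have h1 := Finset.single_le_sum (f := fun v : ℤ × ℤ => v.1.natAbs + v.2.natAbs)
        (fun _ _ => Nat.zero_le _) hv
      constructor
      · rw [Int.abs_eq_natAbs]; omega
      · rw [Int.abs_eq_natAbs]; omega
    have hk : ∀ k : ℕ, n₀ ≤ k → 1 ≤ k →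
        a ^ 2 * D.toReal ≤ (1 + θ) * K * (1 + 2 * ρ / (k : ℝ)) ^ 2 + a ^ 2 * (Cθ * ε) := by
      intro k hk0 hk1
      have h1 := box_bound hc ha h F S (ρ := ρ) (fun v hv => hρ v (Finset.mem_union_left _ hv))
        (fun v hv => hρ v (Finset.mem_union_right _ hv)) hF hθ hk0
      rw [← hD, ← hCθ] at h1
      have hkr : (0:ℝ) < k := by exact_mod_cast hk1
      have h2 : ((k ^ 2 : ℕ) : ℝ≥0∞) * (ENNReal.ofReal (a ^ 2) * D)
          = ENNReal.ofReal ((k:ℝ) ^ 2 * (a ^ 2 * D.toReal)) := by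
        rw [ENNReal.ofReal_mul (by positivity), ENNReal.ofReal_mul (by positivity),
          ENNReal.ofReal_toReal hDtop]
        congr 1
        rw [← ENNReal.ofReal_natCast]
        push_cast
        rfl
      have h3 : ((k ^ 2 : ℕ) : ℝ≥0∞) * (ENNReal.ofReal (a ^ 2) * (ENNReal.ofReal Cθ * ENNReal.ofReal ε))
          = ENNReal.ofReal ((k:ℝ) ^ 2 * (a ^ 2 * (Cθ * ε))) := by
        rw [ENNReal.ofReal_mul (p := (k:ℝ) ^ 2) (by positivity),
          ENNReal.ofReal_mul (p := a ^ 2) (by positivity), ENNReal.ofReal_mul (p := Cθ) hCθ0]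
        congr 1
        rw [← ENNReal.ofReal_natCast]
        push_cast
        rfl
      have hKn : 0 ≤ K * ((k + 2 * ρ : ℕ) : ℝ) ^ 2 := by positivity
      rw [h2, h3, ← ENNReal.ofReal_mul (by positivity), ← ENNReal.ofReal_add (by positivity)
        (by positivity)] at h1
      rw [ENNReal.ofReal_le_ofReal_iff (by positivity)] at h1
      have h4 : ((k + 2 * ρ : ℕ) : ℝ) = k * (1 + 2 * ρ / (k : ℝ)) := by
        push_cast
        field_simp
      rw [h4] at h1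
      have h5 : (k:ℝ) ^ 2 * (a ^ 2 * D.toReal)
          ≤ (k:ℝ) ^ 2 * ((1 + θ) * K * (1 + 2 * ρ / (k : ℝ)) ^ 2 + a ^ 2 * (Cθ * ε)) := by
        refine h1.trans (le_of_eq ?_)
        ring
      exact le_of_mul_le_mul_left h5 (by positivity)
    have hlim : Tendsto (fun k : ℕ => (1 + θ) * K * (1 + 2 * ρ / (k : ℝ)) ^ 2 + a ^ 2 * (Cθ * ε)) atTop
        (𝓝 ((1 + θ) * K * (1 + 0) ^ 2 + a ^ 2 * (Cθ * ε))) := by
      refine Tendsto.add_const _ (Tendsto.const_mul _ (Tendsto.pow (Tendsto.const_add _ ?_) 2))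
      exact tendsto_const_div_atTop_nhds_zero_nat _
    have h6 := ge_of_tendsto hlim (b := a ^ 2 * D.toReal) (by
      filter_upwards [eventually_ge_atTop (max n₀ 1)] with k hk'
      exact hk k ((le_max_left _ _).trans hk') ((le_max_right _ _).trans hk'))
    simpa using h6
  -- first ε → 0, then θ → 0
  have h7 : ∀ θ : ℝ, 0 < θ → a ^ 2 * D.toReal ≤ (1 + θ) * K := by
    intro θ hθ
    refine le_of_forall_pos_le_add fun δ hδ => ?_
    set Cθ : ℝ := (1 + 1 / θ) * (∑ v ∈ S, nsq v) * (16 / a ^ 2) with hCθ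
    have hCθ0 : 0 ≤ Cθ := mul_nonneg (mul_nonneg (by positivity)
      (Finset.sum_nonneg fun v _ => nsq_nonneg v)) (by positivity)
    have h8 := hmain θ hθ (δ / (a ^ 2 * Cθ + 1)) (by positivity)
    refine h8.trans ?_
    gcongr
    rw [← hCθ]
    have h9 : a ^ 2 * (Cθ * (δ / (a ^ 2 * Cθ + 1))) = δ * ((a ^ 2 * Cθ) / (a ^ 2 * Cθ + 1)) := by
      ring
    rw [h9]
    have h10 : (a ^ 2 * Cθ) / (a ^ 2 * Cθ + 1) ≤ 1 := by
      rw [div_le_one (by positivity)]
      linarith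
    nlinarith
  have h11 : a ^ 2 * D.toReal ≤ K := by
    refine le_of_forall_pos_le_add fun δ hδ => ?_
    have h12 := h7 (δ / (K + 1)) (by positivity)
    refine h12.trans ?_
    have h13 : (1 + δ / (K + 1)) * K = K + δ * (K / (K + 1)) := by ring
    rw [h13]
    have h14 : K / (K + 1) ≤ 1 := by
      rw [div_le_one (by positivity)]
      linarith
    nlinarith
  rw [← ENNReal.ofReal_toReal hDtop]
  refine ENNReal.ofReal_le_ofReal ?_
  rw [le_div_iff₀ (by positivity)]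
  linarith

end Pool.Agent.Lib.MP_562b47_mp.BX
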