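import Pool.Agent.Lib.MP_562b47_mp.AL.Ward
import Pool.Agent.Lib.MP_562b47_mp.BG.Defs

/-!
MP_562b47, d = 2, passage from boxes to the plane: the deterministic comparison of the Green function
of the plane with the Green function of a finite set of sites.
-/

open Finset Matrix

namespace Pool.Agent.Lib.MP_562b47_mp.BX

open Pool.Agent.Lib.MP_562b47_mp.AL Pool.Agent.Lib.MP_562b47_mp.BG

variable {ι : Type*} [Fintype ι] [DecidableEq ι]

theorem sum_adj {pos : ι → ℤ × ℤ} (hpos : Function.Injective pos) (ψ : ℤ × ℤ → ℂ) (p : ℤ × ℤ)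
    [DecidablePred fun v => v ∈ Set.range pos] :
    ∑ x', (if adj p (pos x') then ψ (pos x') else 0)
      = nbs (fun v => if v ∈ Set.range pos then ψ v else 0) p := by
  have h1 : ∀ v : ℤ × ℤ, (if v ∈ Set.range pos then ψ v else 0)
      = ∑ x', if pos x' = v then ψ (pos x') else 0 := by
    intro v
    by_cases hv : v ∈ Set.range pos
    · rw [if_pos hv]
      obtain ⟨x0, hx0⟩ := hv
      rw [Finset.sum_eq_single x0]
      · rw [if_pos hx0, hx0]
      · intro b _ hb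
        rw [if_neg]
        intro h
        exact hb (hpos (h.trans hx0.symm))
      · simp
    · rw [if_neg hv]
      symm
      refine Finset.sum_eq_zero fun x' _ => ?_
      rw [if_neg]
      intro h
      exact hv ⟨x', h⟩
  unfold nbs
  simp only [h1]
  rw [← sum_add_distrib, ← sum_add_distrib, ← sum_add_distrib]
  refine sum_congr rfl fun x' _ => ?_
  obtain ⟨p1, p2⟩ := p
  rcases hq : pos x' with ⟨q1, q2⟩
  simp only [adj, Prod.mk.injEq]
  by_cases h : q1 = p1 + 1 ∧ q2 = p2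
  · rw [if_pos (Or.inl h), if_pos h, if_neg (by omega), if_neg (by omega), if_neg (by omega)]
    ring
  · by_cases h' : q1 = p1 - 1 ∧ q2 = p2
    · rw [if_pos (Or.inr (Or.inl h')), if_neg h, if_pos h', if_neg (by omega), if_neg (by omega)]
      ring
    · by_cases h'' : q1 = p1 ∧ q2 = p2 + 1
      · rw [if_pos (Or.inr (Or.inr (Or.inl h''))), if_neg h, if_neg h', if_pos h'',
          if_neg (by omega)]
        ring
      · by_cases h3 : q1 = p1 ∧ q2 = p2 - 1
        · rw [if_pos (Or.inr (Or.inr (Or.inr h3))), if_neg h, if_neg h', if_neg h'', if_pos h3]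
          ring
        · rw [if_neg (by tauto), if_neg h, if_neg h', if_neg h'', if_neg h3]
          ring

/-- resolvent bound for a right-hand side -/
theorem norm_le_of_eq {A : Matrix ι ι ℝ} (hA : A.IsSymm) {u : ι → ℂ} {a : ℝ} (ha : 0 < a)
    (hu : ∀ x, (u x).im = -a) (w s : ι → ℂ) (h : ∀ x, ∑ y, HM A u x y * w y = s x) :
    ∑ x, ‖w x‖ ^ 2 ≤ (∑ x, ‖s x‖ ^ 2) / a ^ 2 := by
  have h1 := HM_form hA u w
  simp only [h] at h1
  have hg : ∀ x, gam u x = a := fun x => by unfold gam; rw [hu x]; ring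
  simp only [hg] at h1
  rw [← mul_sum] at h1
  have h2 : a * ∑ x, ‖w x‖ ^ 2 ≤ ∑ x, ‖w x‖ * ‖s x‖ := by
    have h3 : -(∑ x, (starRingEnd ℂ) (w x) * s x).im ≤ ‖∑ x, (starRingEnd ℂ) (w x) * s x‖ :=
      (neg_le_abs _).trans (Complex.abs_im_le_norm _)
    have h4 : ‖∑ x, (starRingEnd ℂ) (w x) * s x‖ ≤ ∑ x, ‖w x‖ * ‖s x‖ := by
      refine (norm_sum_le _ _).trans (le_of_eq (sum_congr rfl fun x _ => ?_))
      rw [norm_mul, Complex.norm_conj]
    linarith
  have h5 : ∑ x, ‖w x‖ * ‖s x‖ ≤ a / 2 * ∑ x, ‖w x‖ ^ 2 + 1 / (2 * a) * ∑ x, ‖s x‖ ^ 2 := by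
    rw [mul_sum, mul_sum, ← sum_add_distrib]
    refine sum_le_sum fun x _ => ?_
    have h6 : 0 ≤ (a * ‖w x‖ - ‖s x‖) ^ 2 / (2 * a) := by positivity
    have h7 : (a * ‖w x‖ - ‖s x‖) ^ 2 / (2 * a)
        = a / 2 * ‖w x‖ ^ 2 + 1 / (2 * a) * ‖s x‖ ^ 2 - ‖w x‖ * ‖s x‖ := by
      field_simp
      ring
    linarith
  have h8 : a / 2 * ∑ x, ‖w x‖ ^ 2 ≤ 1 / (2 * a) * ∑ x, ‖s x‖ ^ 2 := by linarith
  rw [le_div_iff₀ (by positivity)]
  have h9 : (∑ x, ‖w x‖ ^ 2) * a ^ 2 = (2 * a) * (a / 2 * ∑ x, ‖w x‖ ^ 2) := by ring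
  rw [h9]
  calc (2 * a) * (a / 2 * ∑ x, ‖w x‖ ^ 2) ≤ (2 * a) * (1 / (2 * a) * ∑ x, ‖s x‖ ^ 2) := by gcongr
    _ = ∑ x, ‖s x‖ ^ 2 := by field_simp

theorem sum_inj_le {f : ℤ × ℤ → ℝ} (hf : Summable f) (h0 : ∀ v, 0 ≤ f v) {g : ι → ℤ × ℤ}
    (hg : Function.Injective g) : ∑ x, f (g x) ≤ ∑' v, f v := by
  have h1 : ∑ x, f (g x) = ∑ v ∈ univ.map ⟨g, hg⟩, f v := by
    rw [sum_map]; rfl
  rw [h1]
  exact hf.sum_le_tsum _ fun v _ => h0 v

theorem nbs_sq_le (φ : ℤ × ℤ → ℂ) (p : ℤ × ℤ) :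
    ‖nbs φ p‖ ^ 2 ≤ 4 * (‖φ (p.1 + 1, p.2)‖ ^ 2 + ‖φ (p.1 - 1, p.2)‖ ^ 2 + ‖φ (p.1, p.2 + 1)‖ ^ 2
      + ‖φ (p.1, p.2 - 1)‖ ^ 2) := by
  set a := ‖φ (p.1 + 1, p.2)‖
  set b := ‖φ (p.1 - 1, p.2)‖
  set c := ‖φ (p.1, p.2 + 1)‖
  set d := ‖φ (p.1, p.2 - 1)‖
  have h1 : ‖nbs φ p‖ ≤ a + b + c + d := by
    unfold nbs
    refine (norm_add_le _ _).trans (add_le_add ((norm_add_le _ _).trans (add_le_add
      (norm_add_le _ _) le_rfl)) le_rfl)
  have h2 : ‖nbs φ p‖ ^ 2 ≤ (a + b + c + d) ^ 2 := pow_le_pow_left₀ (norm_nonneg _) h1 2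
  nlinarith [sq_nonneg (a - b), sq_nonneg (a - c), sq_nonneg (a - d), sq_nonneg (b - c),
    sq_nonneg (b - d), sq_nonneg (c - d)]

theorem sum_nbs_le {pos : ι → ℤ × ℤ} (hpos : Function.Injective pos) {φ : ℤ × ℤ → ℂ}
    (hφ : Summable fun v => ‖φ v‖ ^ 2) :
    ∑ x, ‖nbs φ (pos x)‖ ^ 2 ≤ 16 * ∑' v, ‖φ v‖ ^ 2 := by
  have h0 : ∀ v, 0 ≤ ‖φ v‖ ^ 2 := fun v => by positivity
  have h1 := sum_inj_le (g := fun x => ((pos x).1 + 1, (pos x).2)) hφ h0
    (fun x y h => hpos (by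
      simp only [Prod.mk.injEq] at h
      exact Prod.ext (by omega) (by omega)))
  have h2 := sum_inj_le (g := fun x => ((pos x).1 - 1, (pos x).2)) hφ h0
    (fun x y h => hpos (by
      simp only [Prod.mk.injEq] at h
      exact Prod.ext (by omega) (by omega)))
  have h3 := sum_inj_le (g := fun x => ((pos x).1, (pos x).2 + 1)) hφ h0
    (fun x y h => hpos (by
      simp only [Prod.mk.injEq] at h
      exact Prod.ext (by omega) (by omega)))
  have h4 := sum_inj_le (g := fun x => ((pos x).1, (pos x).2 - 1)) hφ h0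
    (fun x y h => hpos (by
      simp only [Prod.mk.injEq] at h
      exact Prod.ext (by omega) (by omega)))
  calc ∑ x, ‖nbs φ (pos x)‖ ^ 2 ≤ ∑ x, 4 * (‖φ ((pos x).1 + 1, (pos x).2)‖ ^ 2
        + ‖φ ((pos x).1 - 1, (pos x).2)‖ ^ 2 + ‖φ ((pos x).1, (pos x).2 + 1)‖ ^ 2
        + ‖φ ((pos x).1, (pos x).2 - 1)‖ ^ 2) := sum_le_sum fun x _ => nbs_sq_le φ (pos x)
    _ = 4 * (∑ x, ‖φ ((pos x).1 + 1, (pos x).2)‖ ^ 2 + ∑ x, ‖φ ((pos x).1 - 1, (pos x).2)‖ ^ 2
        + ∑ x, ‖φ ((pos x).1, (pos x).2 + 1)‖ ^ 2 + ∑ x, ‖φ ((pos x).1, (pos x).2 - 1)‖ ^ 2) := by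
        rw [← mul_sum, sum_add_distrib, sum_add_distrib, sum_add_distrib]
    _ ≤ 16 * ∑' v, ‖φ v‖ ^ 2 := by linarith

open Classical in
/-- **Comparison.** `ψ` = a column of the Green function of the plane. -/
theorem det_compare {pos : ι → ℤ × ℤ} (hpos : Function.Injective pos) {A : Matrix ι ι ℝ} {E a : ℝ}
    (ha : 0 < a)
    (hA : ∀ x y, A x y = if x = y then 4 - E else if adj (pos x) (pos y) then -1 else 0)
    (V : ι → ℝ) {ψ : ℤ × ℤ → ℂ} (hψ : Summable fun v => ‖ψ v‖ ^ 2) (y : ι)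
    (heq : ∀ x : ι, ((4 + V x - E : ℝ) - a * Complex.I : ℂ) * ψ (pos x) - nbs ψ (pos x)
      = if x = y then 1 else 0) :
    ∑ x, ‖ψ (pos x) - GM A (fun x => (V x : ℂ) - a * Complex.I) x y‖ ^ 2
      ≤ 16 / a ^ 2 * ∑' v, (if v ∈ Set.range pos then 0 else ‖ψ v‖ ^ 2) := by
  set u : ι → ℂ := fun x => (V x : ℂ) - a * Complex.I with hu
  have hadj : ∀ x y : ι, adj (pos x) (pos y) ↔ adj (pos y) (pos x) := by
    intro x y
    unfold adj
    constructor <;> intro h <;> rcases h with h | h | h | h <;>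
      · have h1 := congrArg Prod.fst h
        have h2 := congrArg Prod.snd h
        simp only at h1 h2
        simp only [Prod.ext_iff]
        omega
  have hs : A.IsSymm := by
    ext x y
    rw [transpose_apply, hA, hA]
    by_cases h : x = y
    · subst h; rfl
    · rw [if_neg h, if_neg (Ne.symm h)]
      by_cases h' : adj (pos x) (pos y)
      · rw [if_pos h', if_pos ((hadj x y).mp h')]
      · rw [if_neg h', if_neg (fun h2 => h' ((hadj x y).mpr h2))]
  have him : ∀ x, (u x).im = -a := fun x => by simp [hu]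
  have hl : Loss u := fun x => by rw [him x]; linarith
  set φ : ℤ × ℤ → ℂ := fun v => if v ∈ Set.range pos then 0 else ψ v with hφ
  have hφs : Summable fun v => ‖φ v‖ ^ 2 := by
    refine Summable.of_nonneg_of_le (fun v => by positivity) (fun v => ?_) hψ
    simp only [hφ]
    split_ifs
    · simp
    · exact le_rfl
  have hself : ∀ x : ι, ¬ adj (pos x) (pos x) := by
    intro x h
    unfold adj at h
    rcases h with h | h | h | h <;>
      · have h1 := congrArg Prod.fst h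
        have h2 := congrArg Prod.snd h
        simp only at h1 h2
        omega
  have hrow : ∀ x, ∑ x', HM A u x x' * ψ (pos x') = (if x = y then 1 else 0) + nbs φ (pos x) := by
    intro x
    have h1 : ∀ x', HM A u x x' * ψ (pos x') = (if x = x' then ((4 - E : ℝ) + u x) * ψ (pos x) else 0)
        - (if adj (pos x) (pos x') then ψ (pos x') else 0) := by
      intro x'
      rw [HM_apply, hA]
      by_cases h : x = x'
      · subst h
        rw [if_pos rfl, if_pos rfl, if_pos rfl, if_neg (hself x)]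
        ring
      · rw [if_neg h, if_neg h, if_neg h]
        split_ifs <;> push_cast <;> ring
    simp only [h1]
    rw [sum_sub_distrib, Finset.sum_ite_eq, if_pos (mem_univ _), sum_adj hpos ψ (pos x)]
    have h2 := heq x
    have h3 : nbs ψ (pos x) = nbs (fun v => if v ∈ Set.range pos then ψ v else 0) (pos x)
        + nbs φ (pos x) := by
      have h4 : ψ = fun v => (if v ∈ Set.range pos then ψ v else 0) + φ v := by
        funext v
        simp only [hφ]
        split_ifs <;> simp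
      conv_lhs => rw [h4]
      unfold nbs
      ring
    rw [h3] at h2
    have h5 : ((4 - E : ℝ) + u x : ℂ) = ((4 + V x - E : ℝ) - a * Complex.I : ℂ) := by
      simp only [hu]; push_cast; ring
    rw [h5]
    linear_combination h2
  have hG : ∀ x, ∑ x', HM A u x x' * GM A u x' y = if x = y then 1 else 0 := by
    intro x
    have h := congrFun (congrFun (HM_mul_GM hs hl) x) y
    rw [mul_apply, one_apply] at h
    exact h
  have hw := norm_le_of_eq hs ha him (fun x => ψ (pos x) - GM A u x y) (fun x => nbs φ (pos x))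
    (fun x => by
      simp only [mul_sub, sum_sub_distrib]
      rw [hrow, hG]
      ring)
  refine hw.trans ?_
  have h6 := sum_nbs_le hpos hφs
  have h7 : ∑' v, ‖φ v‖ ^ 2 = ∑' v, (if v ∈ Set.range pos then 0 else ‖ψ v‖ ^ 2) := by
    refine tsum_congr fun v => ?_
    simp only [hφ]
    split_ifs <;> simp
  rw [h7] at h6
  calc (∑ x, ‖nbs φ (pos x)‖ ^ 2) / a ^ 2
      ≤ (16 * ∑' v, (if v ∈ Set.range pos then 0 else ‖ψ v‖ ^ 2)) / a ^ 2 := by gcongr
    _ = _ := by ring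

end Pool.Agent.Lib.MP_562b47_mp.BX
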