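import Pool.Agent.Lib.MP_562b47_mp.BX.Lim
import Pool.Agent.Lib.MP_562b47_mp.AL.Comm

/-!
MP_562b47, d = 2: energies outside of `[-c, 8 + c]`.
-/

open MeasureTheory Set Filter Topology Complex Matrix
open scoped Real ENNReal NNReal InnerProductSpace

namespace Pool.Agent.Lib.MP_562b47_mp.BX

open Pool.Agent.Lib.MP_562b47_mp Pool.Agent.Lib.MP_562b47_mp.BG Pool.Agent.Lib.MP_562b47_mp.AL

variable {ι κ : Type*} [Fintype ι] [DecidableEq ι] [Fintype κ]
variable {c E a : ℝ} {pos : ι → ℤ × ℤ} {A : Matrix ι ι ℝ}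

omit [DecidableEq ι] in
theorem adj_symm (x y : ι) : adj (pos x) (pos y) ↔ adj (pos y) (pos x) := by
  unfold adj
  constructor <;> intro h <;> rcases h with h | h | h | h <;>
    · have h1 := congrArg Prod.fst h
      have h2 := congrArg Prod.snd h
      simp only at h1 h2
      simp only [Prod.ext_iff]
      omega

omit [Fintype ι] [DecidableEq ι] in
theorem adj_irr (x : ι) : ¬ adj (pos x) (pos x) := by
  intro h
  unfold adj at h
  rcases h with h | h | h | h <;>
    · have h1 := congrArg Prod.fst h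
      have h2 := congrArg Prod.snd h
      simp only at h1 h2
      omega

/-- every site has at most four neighbours -/
theorem deg_le (hpos : Function.Injective pos) (x : ι) :
    ∑ y, (if adj (pos x) (pos y) then (1:ℝ) else 0) ≤ 4 := by
  classical
  have h := sum_adj hpos (fun _ => (1:ℂ)) (pos x)
  have h1 : ((∑ y, (if adj (pos x) (pos y) then (1:ℝ) else 0) : ℝ) : ℂ)
      = ∑ y, (if adj (pos x) (pos y) then (1:ℂ) else 0) := by
    push_cast
    exact Finset.sum_congr rfl fun y _ => by split_ifs <;> simp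
  rw [← h1] at h
  have h2 : ‖((∑ y, (if adj (pos x) (pos y) then (1:ℝ) else 0) : ℝ) : ℂ)‖ ≤ 4 := by
    rw [h]
    unfold nbs
    have h3 : ∀ v : ℤ × ℤ, ‖(if v ∈ Set.range pos then (1:ℂ) else 0)‖ ≤ 1 := by
      intro v
      split_ifs <;> simp
    calc _ ≤ ((1:ℝ) + 1) + 1 + 1 :=
          (norm_add_le _ _).trans (add_le_add ((norm_add_le _ _).trans (add_le_add
            ((norm_add_le _ _).trans (add_le_add (h3 _) (h3 _))) (h3 _))) (h3 _))
      _ = 4 := by norm_num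
  rw [Complex.norm_real] at h2
  exact (le_abs_self _).trans h2

/-- lower bound of the quadratic form -/
theorem form_lower (hpos : Function.Injective pos)
    (hA : ∀ x y, A x y = if x = y then 4 - E else if adj (pos x) (pos y) then -1 else 0)
    {V : ι → ℝ} {δ : ℝ} (h : (∀ x, 4 + δ ≤ 4 - E + V x) ∨ (∀ x, 4 - E + V x ≤ -(4 + δ)))
    (v : ι → ℂ) :
    δ * ∑ x, ‖v x‖ ^ 2
      ≤ ‖∑ x, (starRingEnd ℂ) (v x) * ∑ y, HM A (fun x => ((V x : ℝ) : ℂ) - a * Complex.I) x y * v y‖ := by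
  classical
  set R : ℝ := (∑ x, (starRingEnd ℂ) (v x) * ∑ y, HM A (fun x => ((V x : ℝ) : ℂ) - a * Complex.I) x y * v y).re
    with hR
  set T : ℝ := ∑ x, ∑ y, (if adj (pos x) (pos y) then ((starRingEnd ℂ) (v x) * v y).re else 0) with hT
  have e1 : R = ∑ x, (4 - E + V x) * ‖v x‖ ^ 2 - T := by
    rw [hR, Complex.re_sum, hT, ← Finset.sum_sub_distrib]
    refine Finset.sum_congr rfl fun x _ => ?_
    have h1 : ∀ y, HM A (fun x => ((V x : ℝ) : ℂ) - a * Complex.I) x y * v y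
        = (if x = y then ((4 - E + V x : ℝ) - a * Complex.I : ℂ) * v x else 0)
          - (if adj (pos x) (pos y) then v y else 0) := by
      intro y
      rw [HM_apply, hA]
      by_cases h : x = y
      · subst h
        rw [if_pos rfl, if_pos rfl, if_pos rfl, if_neg (adj_irr x)]
        push_cast
        ring
      · rw [if_neg h, if_neg h, if_neg h]
        split_ifs <;> push_cast <;> ring
    simp only [h1]
    rw [Finset.sum_sub_distrib, Finset.sum_ite_eq, if_pos (Finset.mem_univ _), mul_sub,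
      Complex.sub_re, Finset.mul_sum, Complex.re_sum]
    congr 1
    · have h3 : (starRingEnd ℂ) (v x) * (((4 - E + V x : ℝ) - a * Complex.I : ℂ) * v x)
          = ((4 - E + V x : ℝ) - a * Complex.I : ℂ) * ((‖v x‖ ^ 2 : ℝ) : ℂ) := by
        have : (starRingEnd ℂ) (v x) * v x = ((‖v x‖ ^ 2 : ℝ) : ℂ) := by
          rw [mul_comm, Complex.mul_conj, Complex.normSq_eq_norm_sq]
        rw [← this]; ring
      rw [h3, Complex.re_mul_ofReal]
      simp
    · refine Finset.sum_congr rfl fun y _ => ?_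
      split_ifs <;> simp
  have hT4 : |T| ≤ 4 * ∑ x, ‖v x‖ ^ 2 := by
    have h1 : |T| ≤ ∑ x, ∑ y, (if adj (pos x) (pos y) then (‖v x‖ ^ 2 + ‖v y‖ ^ 2) / 2 else 0) := by
      rw [hT]
      refine (Finset.abs_sum_le_sum_abs _ _).trans (Finset.sum_le_sum fun x _ => ?_)
      refine (Finset.abs_sum_le_sum_abs _ _).trans (Finset.sum_le_sum fun y _ => ?_)
      split_ifs
      · refine (Complex.abs_re_le_norm _).trans ?_
        rw [norm_mul, Complex.norm_conj]
        nlinarith [sq_nonneg (‖v x‖ - ‖v y‖)]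
      · simp
    have h2 : ∀ x y, (if adj (pos x) (pos y) then (‖v x‖ ^ 2 + ‖v y‖ ^ 2) / 2 else 0)
        = (if adj (pos x) (pos y) then (1:ℝ) else 0) * (‖v x‖ ^ 2 / 2)
          + (if adj (pos y) (pos x) then (1:ℝ) else 0) * (‖v y‖ ^ 2 / 2) := by
      intro x y
      by_cases h : adj (pos x) (pos y)
      · rw [if_pos h, if_pos h, if_pos ((adj_symm x y).mp h)]; ring
      · rw [if_neg h, if_neg h, if_neg (fun h' => h ((adj_symm x y).mpr h'))]; ring
    simp only [h2] at h1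
    simp only [Finset.sum_add_distrib] at h1
    rw [Finset.sum_comm (f := fun x y => (if adj (pos y) (pos x) then (1:ℝ) else 0)
      * (‖v y‖ ^ 2 / 2))] at h1
    simp only [← Finset.sum_mul] at h1
    have h5 : ∑ x, (∑ y, (if adj (pos x) (pos y) then (1:ℝ) else 0)) * (‖v x‖ ^ 2 / 2)
        ≤ ∑ x, 4 * (‖v x‖ ^ 2 / 2) := Finset.sum_le_sum fun x _ => by
      have := deg_le hpos x
      gcongr
    have h6 : ∑ x, 4 * (‖v x‖ ^ 2 / 2) = 2 * ∑ x, ‖v x‖ ^ 2 := by
      rw [Finset.mul_sum]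
      exact Finset.sum_congr rfl fun x _ => by ring
    linarith
  have habs := abs_le.mp hT4
  have hle : |R| ≤ ‖∑ x, (starRingEnd ℂ) (v x) * ∑ y, HM A (fun x => ((V x : ℝ) : ℂ) - a * Complex.I) x y * v y‖ :=
    Complex.abs_re_le_norm _
  refine le_trans ?_ hle
  rcases h with h | h
  · have h7 : (4 + δ) * ∑ x, ‖v x‖ ^ 2 ≤ ∑ x, (4 - E + V x) * ‖v x‖ ^ 2 := by
      rw [Finset.mul_sum]
      exact Finset.sum_le_sum fun x _ => by have := h x; gcongr
    have := le_abs_self R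
    linarith
  · have h7 : ∑ x, (4 - E + V x) * ‖v x‖ ^ 2 ≤ -(4 + δ) * ∑ x, ‖v x‖ ^ 2 := by
      rw [Finset.mul_sum]
      exact Finset.sum_le_sum fun x _ => by have := h x; gcongr
    have := neg_le_abs R
    linarith

theorem inv_bound (hpos : Function.Injective pos)
    (hA : ∀ x y, A x y = if x = y then 4 - E else if adj (pos x) (pos y) then -1 else 0)
    {V : ι → ℝ} {δ : ℝ} (hδ : 0 < δ)
    (h : (∀ x, 4 + δ ≤ 4 - E + V x) ∨ (∀ x, 4 - E + V x ≤ -(4 + δ))) (v : ι → ℂ) :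
    δ ^ 2 * ∑ x, ‖v x‖ ^ 2
      ≤ ∑ x, ‖∑ y, HM A (fun x => ((V x : ℝ) : ℂ) - a * Complex.I) x y * v y‖ ^ 2 := by
  have h1 := form_lower (a := a) hpos hA h v
  set s : ι → ℂ := fun x => ∑ y, HM A (fun x => ((V x : ℝ) : ℂ) - a * Complex.I) x y * v y with hs
  have h2 : ‖∑ x, (starRingEnd ℂ) (v x) * s x‖ ≤ ∑ x, ‖v x‖ * ‖s x‖ := by
    refine (norm_sum_le _ _).trans (le_of_eq (Finset.sum_congr rfl fun x _ => ?_))
    rw [norm_mul, Complex.norm_conj]
  have h5 : ∑ x, ‖v x‖ * ‖s x‖ ≤ δ / 2 * ∑ x, ‖v x‖ ^ 2 + 1 / (2 * δ) * ∑ x, ‖s x‖ ^ 2 := by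
    rw [Finset.mul_sum, Finset.mul_sum, ← Finset.sum_add_distrib]
    refine Finset.sum_le_sum fun x _ => ?_
    have h6 : 0 ≤ (δ * ‖v x‖ - ‖s x‖) ^ 2 / (2 * δ) := by positivity
    have h7 : (δ * ‖v x‖ - ‖s x‖) ^ 2 / (2 * δ)
        = δ / 2 * ‖v x‖ ^ 2 + 1 / (2 * δ) * ‖s x‖ ^ 2 - ‖v x‖ * ‖s x‖ := by
      field_simp
      ring
    linarith
  have h8 : δ / 2 * ∑ x, ‖v x‖ ^ 2 ≤ 1 / (2 * δ) * ∑ x, ‖s x‖ ^ 2 := by linarith
  have h9 : δ ^ 2 * ∑ x, ‖v x‖ ^ 2 = (2 * δ) * (δ / 2 * ∑ x, ‖v x‖ ^ 2) := by ring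
  rw [h9]
  calc (2 * δ) * (δ / 2 * ∑ x, ‖v x‖ ^ 2) ≤ (2 * δ) * (1 / (2 * δ) * ∑ x, ‖s x‖ ^ 2) := by gcongr
    _ = ∑ x, ‖s x‖ ^ 2 := by field_simp

theorem hs_G_mul (hpos : Function.Injective pos)
    (hA : ∀ x y, A x y = if x = y then 4 - E else if adj (pos x) (pos y) then -1 else 0)
    (ha : 0 < a) {V : ι → ℝ} {δ : ℝ} (hδ : 0 < δ)
    (h : (∀ x, 4 + δ ≤ 4 - E + V x) ∨ (∀ x, 4 - E + V x ≤ -(4 + δ))) (M : Matrix ι ι ℂ) :
    δ ^ 2 * hs (GM A (fun x => ((V x : ℝ) : ℂ) - a * Complex.I) * M) ≤ hs M := by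
  set u : ι → ℂ := fun x => ((V x : ℝ) : ℂ) - a * Complex.I with hu
  have hl : Loss u := fun x => by simpa [hu] using ha
  have hsym := A_symm hA
  unfold hs
  rw [Finset.sum_comm, Finset.sum_comm (f := fun x y => ‖M x y‖ ^ 2), Finset.mul_sum]
  refine Finset.sum_le_sum fun y _ => ?_
  have h1 := inv_bound (a := a) hpos hA hδ h (fun x => (GM A u * M) x y)
  refine h1.trans (le_of_eq (Finset.sum_congr rfl fun x _ => ?_))
  have h2 : ∑ z, HM A u x z * (GM A u * M) z y = (HM A u * (GM A u * M)) x y := by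
    rw [mul_apply]
  rw [← hu, h2, ← Matrix.mul_assoc, HM_mul_GM hsym hl, Matrix.one_mul]

/-- the box functional outside of the spectrum -/
theorem DU_out (hpos : Function.Injective pos)
    (hA : ∀ x y, A x y = if x = y then 4 - E else if adj (pos x) (pos y) then -1 else 0)
    {ξ : κ → ι → ℝ} (hξ : ∀ x y, ff ξ x y = nsq (pos x - pos y))
    (ha : 0 < a) {V : ι → ℝ} {δ : ℝ} (hδ : 0 < δ)
    (h : (∀ x, 4 + δ ≤ 4 - E + V x) ∨ (∀ x, 4 - E + V x ≤ -(4 + δ))) :
    DU A ξ (fun x => ((V x : ℝ) : ℂ) - a * Complex.I) ≤ 4 * a ^ 2 / δ ^ 4 * Fintype.card ι := by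
  set u : ι → ℂ := fun x => ((V x : ℝ) : ℂ) - a * Complex.I with hu
  have hl : Loss u := fun x => by simpa [hu] using ha
  have hsym := A_symm hA
  have hg : ∀ x, gam u x = a := fun x => by simp [hu, gam]
  rw [DU_eq_hs hsym hl]
  have hsa : Real.sqrt a ^ 2 = a := Real.sq_sqrt ha.le
  have h1 : ∀ j, δ ^ 4 * hs ((Km A u)ᵀ * Jm A (ξ j) * Km A u) ≤ a ^ 2 * hs (Jm A (ξ j)) := by
    intro j
    have h2 : ∀ x y, ((Km A u)ᵀ * Jm A (ξ j) * Km A u) x y
        = (a : ℂ) * (GM A u * Jm A (ξ j) * GM A u) x y := by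
      intro x y
      have h3 : Km A u = (Real.sqrt a : ℂ) • GM A u := by
        ext p q
        rw [Km, of_apply, hg, Matrix.smul_apply, smul_eq_mul, mul_comm]
      have h4 : (GM A u)ᵀ = GM A u := by
        ext p q
        rw [transpose_apply, GM_symm hsym]
      rw [h3, transpose_smul, h4, Matrix.smul_mul, Matrix.smul_mul, Matrix.mul_smul, smul_smul,
        Matrix.smul_apply, smul_eq_mul]
      congr 1
      rw [← Complex.ofReal_mul, ← sq, hsa]
    have h5 : hs ((Km A u)ᵀ * Jm A (ξ j) * Km A u) = a ^ 2 * hs (GM A u * Jm A (ξ j) * GM A u) := by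
      unfold hs
      rw [Finset.mul_sum]
      refine Finset.sum_congr rfl fun x _ => ?_
      rw [Finset.mul_sum]
      refine Finset.sum_congr rfl fun y _ => ?_
      rw [h2, norm_mul, mul_pow, Complex.norm_real, Real.norm_of_nonneg ha.le]
    have h6 : δ ^ 2 * hs (GM A u * Jm A (ξ j) * GM A u) ≤ hs (Jm A (ξ j) * GM A u) := by
      rw [Matrix.mul_assoc]
      exact hs_G_mul hpos hA ha hδ h _
    have h7 : δ ^ 2 * hs (Jm A (ξ j) * GM A u) ≤ hs (Jm A (ξ j)) := by
      have h4 : (GM A u)ᵀ = GM A u := by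
        ext p q
        rw [transpose_apply, GM_symm hsym]
      rw [← hs_transpose, transpose_mul, h4, ← hs_transpose (Jm A (ξ j))]
      exact hs_G_mul hpos hA ha hδ h _
    rw [h5]
    calc δ ^ 4 * (a ^ 2 * hs (GM A u * Jm A (ξ j) * GM A u))
        = a ^ 2 * (δ ^ 2 * (δ ^ 2 * hs (GM A u * Jm A (ξ j) * GM A u))) := by ring
      _ ≤ a ^ 2 * (δ ^ 2 * hs (Jm A (ξ j) * GM A u)) := by gcongr
      _ ≤ a ^ 2 * hs (Jm A (ξ j)) := by gcongr
  have h2 : ∑ j, hs (Jm A (ξ j)) ≤ 4 * Fintype.card ι := by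
    have h3 : ∑ j, hs (Jm A (ξ j)) = ∑ x, ∑ y, A x y ^ 2 * ff ξ x y := by
      unfold hs
      rw [Finset.sum_comm]
      refine Finset.sum_congr rfl fun x _ => ?_
      rw [Finset.sum_comm]
      refine Finset.sum_congr rfl fun y _ => ?_
      unfold ff
      rw [Finset.mul_sum]
      refine Finset.sum_congr rfl fun j _ => ?_
      rw [Jm, of_apply, norm_mul, Complex.norm_real, Complex.norm_real, mul_pow, Real.norm_eq_abs,
        Real.norm_eq_abs, sq_abs, sq_abs]
      ring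
    rw [h3]
    have h4 : ∀ x y, A x y ^ 2 * ff ξ x y = if adj (pos x) (pos y) then (1:ℝ) else 0 := by
      intro x y
      rw [hξ, hA]
      by_cases hxy : x = y
      · subst hxy
        rw [if_pos rfl, if_neg (adj_irr x)]
        simp [nsq]
      · rw [if_neg hxy]
        by_cases h5 : adj (pos x) (pos y)
        · rw [if_pos h5, if_pos h5]
          have h6 : nsq (pos x - pos y) = 1 := by
            unfold nsq
            unfold adj at h5
            rcases h5 with h5 | h5 | h5 | h5 <;>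
              · have g1 := congrArg Prod.fst h5
                have g2 := congrArg Prod.snd h5
                simp only at g1 g2
                simp [Prod.fst_sub, Prod.snd_sub, g1, g2]
          rw [h6]; norm_num
        · rw [if_neg h5, if_neg h5]; ring
    simp only [h4]
    calc ∑ x, ∑ y, (if adj (pos x) (pos y) then (1:ℝ) else 0) ≤ ∑ _x : ι, (4:ℝ) :=
          Finset.sum_le_sum fun x _ => deg_le hpos x
      _ = 4 * Fintype.card ι := by simp [mul_comm]
  have h3 : δ ^ 4 * ∑ j, hs ((Km A u)ᵀ * Jm A (ξ j) * Km A u) ≤ a ^ 2 * (4 * Fintype.card ι) := by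
    rw [Finset.mul_sum]
    calc ∑ j, δ ^ 4 * hs ((Km A u)ᵀ * Jm A (ξ j) * Km A u) ≤ ∑ j, a ^ 2 * hs (Jm A (ξ j)) :=
          Finset.sum_le_sum fun j _ => h1 j
      _ = a ^ 2 * ∑ j, hs (Jm A (ξ j)) := by rw [Finset.mul_sum]
      _ ≤ _ := by gcongr
  have h4 : 4 * a ^ 2 / δ ^ 4 * Fintype.card ι = a ^ 2 * (4 * Fintype.card ι) / δ ^ 4 := by ring
  rw [h4, le_div_iff₀ (by positivity)]
  linarith

/-- **Energies outside of the spectrum.** -/
theorem DE_out (hc : 0 < c) {δ : ℝ} (hδ : 0 < δ) (hE : E ≤ -c - δ ∨ 8 + c + δ ≤ E) (ha : 0 < a) :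
    QL.DE 2 c ⟨E, a⟩ ≤ ENNReal.ofReal (4 / δ ^ 4) := by
  have := unif_prob hc
  have h := lim_box (c := c) (E := E) (a := a) hc ha (K := 4 * a ^ 2 / δ ^ 4) (by positivity)
    (n₀ := 0) (fun n _ => by
      have h3 : ∀ᵐ V ∂(Measure.pi fun _ : Fin n × Fin n => unif c), ∀ x, V x ∈ Icc (-c) c := by
        rw [ae_all_iff]
        intro x
        exact (measurePreserving_eval (fun _ : Fin n × Fin n => unif c) x).quasiMeasurePreserving.ae
          (ae_unif c)
      have hb : ∀ᵐ V ∂(Measure.pi fun _ : Fin n × Fin n => unif c),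
          DU (Ab E n) (xb n) (fun x => ((V x : ℝ) : ℂ) - a * Complex.I)
            ≤ 4 * a ^ 2 / δ ^ 4 * (n:ℝ) ^ 2 := by
        filter_upwards [h3] with V hV
        have h4 := DU_out (A := Ab E n) (pos := bp n) (bp_inj n) (fun x y => rfl) (ff_xb n) ha
          (V := V) hδ (by
            rcases hE with hE | hE
            · left; intro x; have := (hV x).1; linarith
            · right; intro x; have := (hV x).2; linarith)
        rw [Fintype.card_prod, Fintype.card_fin] at h4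
        push_cast at h4
        rw [sq (n:ℝ)]
        exact h4
      calc ∫ V, DU (Ab E n) (xb n) (fun x => ((V x : ℝ) : ℂ) - a * Complex.I)
            ∂(Measure.pi fun _ : Fin n × Fin n => unif c)
          ≤ ∫ _V : Fin n × Fin n → ℝ, 4 * a ^ 2 / δ ^ 4 * (n:ℝ) ^ 2
            ∂(Measure.pi fun _ : Fin n × Fin n => unif c) := by
            refine integral_mono_of_nonneg (ae_of_all _ fun V => ?_) (integrable_const _) hb
            exact DU_nonneg _ (fun x => by simpa using ha)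
        _ = _ := by simp)
  refine h.trans (le_of_eq ?_)
  congr 1
  field_simp

end Pool.Agent.Lib.MP_562b47_mp.BX
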