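import Pool.Agent.Lib.MP_562b47_mp.BX.Det
import Pool.Agent.Lib.MP_562b47_mp.QL.Fin

/-!
MP_562b47, d = 2, passage from boxes to the plane: the Green function of the plane.
-/

open MeasureTheory Set Filter Topology Complex
open scoped Real ENNReal NNReal InnerProductSpace

namespace Pool.Agent.Lib.MP_562b47_mp.BX

open Pool.Agent.Lib.MP_562b47_mp Pool.Agent.Lib.MP_562b47_mp.BG

/-- `ℤ × ℤ` as functions -/
def tv : ℤ × ℤ ≃ (Fin 2 → ℤ) := (finTwoArrowEquiv ℤ).symm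

theorem tv_apply (p : ℤ × ℤ) : tv p = ![p.1, p.2] := rfl

theorem tv_add (p q : ℤ × ℤ) : tv (p + q) = tv p + tv q := by
  ext i
  fin_cases i <;> simp [tv_apply]

theorem tv_zero : tv 0 = 0 := by
  ext i
  fin_cases i <;> simp [tv_apply]

theorem tv_right (p : ℤ × ℤ) : tv p + Pi.single 0 1 = tv (p.1 + 1, p.2) := by
  ext i
  fin_cases i <;> simp [tv_apply]

theorem tv_left (p : ℤ × ℤ) : tv p - Pi.single 0 1 = tv (p.1 - 1, p.2) := by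
  ext i
  fin_cases i <;> simp [tv_apply]

theorem tv_up (p : ℤ × ℤ) : tv p + Pi.single 1 1 = tv (p.1, p.2 + 1) := by
  ext i
  fin_cases i <;> simp [tv_apply]

theorem tv_down (p : ℤ × ℤ) : tv p - Pi.single 1 1 = tv (p.1, p.2 - 1) := by
  ext i
  fin_cases i <;> simp [tv_apply]

/-- Green function of the plane in coordinates -/
noncomputable def Gp (c : ℝ) (z : ℂ) (ω : (Fin 2 → ℤ) → ℝ) (v y : ℤ × ℤ) : ℂ :=
  Gr (ee 2) (HH 2 c) ω z (tv v) (tv y)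

variable {c : ℝ} {z : ℂ}

theorem Gp_coe (ω : (Fin 2 → ℤ) → ℝ) (v y : ℤ × ℤ) :
    Gp c z ω v y = Rv (HH 2 c ω) z (ee 2 (tv y)) (tv v) := by
  unfold Gp Gr
  rw [ee_eq, inner_eb]

theorem Gp_hasSum (hc : 0 < c) (ω : (Fin 2 → ℤ) → ℝ) (y : ℤ × ℤ) :
    HasSum (fun v => ‖Gp c z ω v y‖ ^ 2) (‖Rv (HH 2 c ω) z (ee 2 (tv y))‖ ^ 2) := by
  have h := (model (d := 2) hc).parseval_norm (Rv (HH 2 c ω) z (ee 2 (tv y)))
  exact (Equiv.hasSum_iff tv).mpr h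

theorem Gp_summable (hc : 0 < c) (ω : (Fin 2 → ℤ) → ℝ) (y : ℤ × ℤ) :
    Summable fun v => ‖Gp c z ω v y‖ ^ 2 := (Gp_hasSum hc ω y).summable

theorem Gp_eq (hc : 0 < c) (hz : 0 < z.im) (ω : (Fin 2 → ℤ) → ℝ) (y v : ℤ × ℤ) :
    (((4 + clp c (ω (tv v)) : ℝ) : ℂ) - z) * Gp c z ω v y - nbs (fun v => Gp c z ω v y) v
      = if v = y then 1 else 0 := by
  have h := H_Rv_apply ((model (d := 2) hc).sa ω) hz.ne' (ee 2 (tv y))
  have h1 := congrArg (fun u : Hilb 2 => u (tv v)) h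
  simp only [lp.coeFn_add, Pi.add_apply, lp.coeFn_smul, Pi.smul_apply, smul_eq_mul] at h1
  rw [HH_apply, Fin.sum_univ_two, tv_right, tv_left, tv_up, tv_down, ee_eq, eb_apply] at h1
  simp only [← ee_eq, ← Gp_coe] at h1
  unfold nbs
  have h2 : (if tv v = tv y then (1:ℂ) else 0) = if v = y then 1 else 0 := by
    by_cases h3 : v = y
    · rw [if_pos h3, if_pos (by rw [h3])]
    · rw [if_neg h3, if_neg (fun h4 => h3 (tv.injective h4))]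
  rw [← h2]
  push_cast
  linear_combination h1

theorem measurable_Gp (hc : 0 < c) (hz : 0 < z.im) (v y : ℤ × ℤ) :
    Continuous fun ω => Gp c z ω v y :=
  (model (d := 2) hc).continuous_Gr continuous_id continuous_const (fun _ => hz) _ _

theorem measurable_Gp_sq (hc : 0 < c) (hz : 0 < z.im) (v y : ℤ × ℤ) :
    Measurable fun ω => ‖Gp c z ω v y‖ₑ ^ 2 :=
  ((measurable_Gp hc hz v y).enorm.measurable).pow_const 2

theorem Gp_shift (hc : 0 < c) (hz : 0 < z.im) (v y : ℤ × ℤ) :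
    ∫⁻ ω, ‖Gp c z ω (v + y) y‖ₑ ^ 2 ∂(PP (Fin 2 → ℤ) c)
      = ∫⁻ ω, ‖Gp c z ω v 0‖ₑ ^ 2 ∂(PP (Fin 2 → ℤ) c) := by
  have := unif_prob hc
  have hmp := measurePreserving_shift (Λ := Fin 2 → ℤ) (unif c) (tv y)
  have h3 : ∀ ω, ‖Gp c z ω (v + y) y‖ₑ ^ 2 = ‖Gp c z (fun j => ω (j + tv y)) v 0‖ₑ ^ 2 := by
    intro ω
    unfold Gp
    rw [shiftCov hc (tv y) ω z (tv v) (tv 0) hz, tv_add, tv_zero, zero_add]
  rw [lintegral_congr h3]
  exact hmp.lintegral_comp (measurable_Gp_sq hc hz v 0)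

/-- `E |G(0, v)|²` -/
noncomputable def gf (c : ℝ) (z : ℂ) (v : ℤ × ℤ) : ℝ≥0∞ :=
  ∫⁻ ω, ‖Gp c z ω v 0‖ₑ ^ 2 ∂(PP (Fin 2 → ℤ) c)

theorem gf_eq (hc : 0 < c) (hz : 0 < z.im) (v y : ℤ × ℤ) :
    ∫⁻ ω, ‖Gp c z ω v y‖ₑ ^ 2 ∂(PP (Fin 2 → ℤ) c) = gf c z (v - y) := by
  have h := Gp_shift hc hz (v - y) y
  rw [sub_add_cancel] at h
  exact h

theorem gf_sum (hc : 0 < c) (hz : 0 < z.im) : ∑' v, gf c z v ≤ ENNReal.ofReal (1 / z.im ^ 2) := by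
  have := PP_prob (Fin 2 → ℤ) hc
  unfold gf
  rw [← lintegral_tsum fun v => (measurable_Gp_sq hc hz v 0).aemeasurable]
  have h1 : ∀ ω, ∑' v, ‖Gp c z ω v 0‖ₑ ^ 2 ≤ ENNReal.ofReal (1 / z.im ^ 2) := by
    intro ω
    have h2 := Gp_hasSum (z := z) hc ω 0
    have h3 : ∑' v, ‖Gp c z ω v 0‖ₑ ^ 2 = ENNReal.ofReal (‖Rv (HH 2 c ω) z (ee 2 (tv 0))‖ ^ 2) := by
      rw [← h2.tsum_eq, ENNReal.ofReal_tsum_of_nonneg (fun y => by positivity) h2.summable]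
      refine tsum_congr fun v => ?_
      rw [ENNReal.ofReal_pow (norm_nonneg _), ofReal_norm]
    rw [h3]
    refine ENNReal.ofReal_le_ofReal ?_
    have h4 := norm_Rv_le ((model (d := 2) hc).sa ω) hz.ne' (ee 2 (tv 0))
    rw [(model (d := 2) hc).ortho.1, abs_of_pos hz] at h4
    rw [le_div_iff₀ (by positivity), ← mul_pow]
    refine pow_le_one₀ (by positivity) ?_
    linarith
  calc ∫⁻ ω, ∑' v, ‖Gp c z ω v 0‖ₑ ^ 2 ∂(PP (Fin 2 → ℤ) c)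
      ≤ ∫⁻ _ω, ENNReal.ofReal (1 / z.im ^ 2) ∂(PP (Fin 2 → ℤ) c) := lintegral_mono h1
    _ = _ := by simp

theorem gf_ne_top (hc : 0 < c) (hz : 0 < z.im) (v : ℤ × ℤ) : gf c z v ≠ ⊤ :=
  ne_top_of_le_ne_top ENNReal.ofReal_ne_top ((ENNReal.le_tsum v).trans (gf_sum hc hz))

/-- small tail -/
theorem gf_tail (hc : 0 < c) (hz : 0 < z.im) {ε : ℝ≥0∞} (hε : 0 < ε) :
    ∃ F : Finset (ℤ × ℤ), ∑' v, (if v ∈ F then 0 else gf c z v) ≤ ε := by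
  have h1 := ENNReal.tendsto_tsum_compl_atTop_zero
    (ne_top_of_le_ne_top ENNReal.ofReal_ne_top (gf_sum (c := c) (z := z) hc hz))
  obtain ⟨F, hF⟩ := ((ENNReal.tendsto_nhds_zero.mp h1) ε hε).exists
  refine ⟨F, le_trans (le_of_eq ?_) hF⟩
  refine Eq.trans ?_ (tsum_subtype ({v | v ∉ F} : Set (ℤ × ℤ)) (gf c z)).symm
  refine tsum_congr fun v => ?_
  by_cases h : v ∈ F
  · rw [if_pos h, indicator_of_notMem]
    simpa using h
  · rw [if_neg h, indicator_of_mem]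
    simpa using h

end Pool.Agent.Lib.MP_562b47_mp.BX
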